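import Mathlib
import Pool.Agent.Hhelper82.Mc.Upper
import Pool.Agent.Hhelper82.Mc.Lower
import Pool.Agent.Hhelper82.Mc.Forms

/-!
# A smooth quartic threefold without a curve of best approximation

We take `k = ℚ` and the archimedean place. The variety is a smooth quartic threefold `X` in `ℙ⁴`,
the ample line bundle is `O(1)`, and `P` is a rational point of `X`. We show that
`α(P, O(1)) = 4/3`, while `α(P, O(1)|_C) > 4/3` for every curve `C` contained in `X`.
-/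

open MvPolynomial Filter Topology Projectivization Pool.Agent.Hhelper82.Mc

namespace Pool.Agent.Results.MP_16efdc_nt.NoBestCurve

/-- The set `ℙ⁴(ℚ)` of rational points of projective 4-space. -/
abbrev P4 : Type := Projectivization ℚ (Fin 5 → ℚ)

/-- The archimedean distance function on `ℙ⁴(ℚ)`:
`max |x_i y_j - x_j y_i| / (max |x_i| * max |y_j|)`. -/
noncomputable def adist (x y : P4) : ℝ :=
  (⨆ p : Fin 5 × Fin 5, |((x.rep p.1 * y.rep p.2 - x.rep p.2 * y.rep p.1 : ℚ) : ℝ)|) /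
    ((⨆ i, |((x.rep i : ℚ) : ℝ)|) * (⨆ i, |((y.rep i : ℚ) : ℝ)|))

/-- The rational points of the closed subscheme of `ℙ⁴` over the field `F ⊇ ℚ` defined by the
(homogeneous) ideal `I`. -/
def ratPts {F : Type} [Field F] [Algebra ℚ F] (I : Ideal (MvPolynomial (Fin 5) F)) : Set P4 :=
  {x | ∀ g ∈ I, aeval (fun i => algebraMap ℚ F (x.rep i)) g = 0}

/-- The set `A({x_i}, O(1))` of the problem (for the point `P`): it is empty unless
`dist(P, x_i) → 0`, and then it is the set of all real `γ` for which the sequence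
`H(x_i) * dist(P, x_i) ^ γ` is bounded above. -/
def expSet (P : P4) (x : ℕ → P4) : Set ℝ :=
  {γ | Tendsto (fun i => adist P (x i)) atTop (𝓝 0) ∧
    BddAbove (Set.range fun i => (x i).mulHeight * adist P (x i) ^ γ)}

/-- `α({x_i}, P, O(1))`, the infimum of `A({x_i}, O(1))`, which is `∞` for the empty set. -/
noncomputable def seqAlpha (P : P4) (x : ℕ → P4) : EReal :=
  sInf ((fun γ : ℝ => (γ : EReal)) '' expSet P x)

/-- `α(P, O(1))` formed with the set `Z` of rational points: the infimum of `α({x_i}, P, O(1))` over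
all sequences of pairwise distinct points of `Z` tending to `P` (`∞` if there is none). -/
noncomputable def alpha (P : P4) (Z : Set P4) : EReal :=
  sInf {s | ∃ x : ℕ → P4, Function.Injective x ∧ (∀ i, x i ∈ Z) ∧
    Tendsto (fun i => adist P (x i)) atTop (𝓝 0) ∧ s = seqAlpha P x}

/-- The ideal `I` is homogeneous and defines a closed subscheme of dimension one in `ℙ⁴` over `F`
(its homogeneous coordinate ring has transcendence degree two). For prime `I` these are the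
curves over `F` in `ℙ⁴`. -/
def IsCurve {F : Type} [Field F] (I : Ideal (MvPolynomial (Fin 5) F)) : Prop :=
  (∀ g ∈ I, ∀ d, homogeneousComponent d g ∈ I) ∧
    Algebra.trdeg F (MvPolynomial (Fin 5) F ⧸ I) = 2

/-- The base point `(0 : 1 : 0 : 0 : 0)`. -/
noncomputable def P0 : P4 := mk ℚ e1 e1_ne

theorem adist_mk (u v : Fin 5 → ℚ) (hu : u ≠ 0) (hv : v ≠ 0) :
    adist (mk ℚ u hu) (mk ℚ v hv) = vdist u v := by
  obtain ⟨c, hc⟩ := exists_smul_eq_mk_rep ℚ u hu
  obtain ⟨d, hd⟩ := exists_smul_eq_mk_rep ℚ v hv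
  have h1 : adist (mk ℚ u hu) (mk ℚ v hv) = vdist (mk ℚ u hu).rep (mk ℚ v hv).rep := rfl
  rw [h1, ← hc, ← hd]
  exact vdist_smul u v c.ne_zero d.ne_zero

theorem aeval_smul_homog' {R K : Type*} [CommRing R] [CommRing K] [Algebra R K] {σ : Type*}
    [Fintype σ] (G : MvPolynomial σ R) {d : ℕ} (hd : G.IsHomogeneous d) (c : K) (v : σ → K) :
    aeval (fun i => c * v i) G = c ^ d * aeval v G := by
  rw [aeval_def, aeval_def, eval₂_eq', eval₂_eq', Finset.mul_sum]
  refine Finset.sum_congr rfl fun e he => ?_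
  have h1 : e.degree = d := (hd.degree_eq_sum_deg_support he).symm
  have h2 : ∏ i, (c * v i) ^ e i = c ^ d * ∏ i, v i ^ e i := by
    simp_rw [mul_pow]
    rw [Finset.prod_mul_distrib, Finset.prod_pow_eq_pow_sum]
    congr 2
    rw [← h1, Finsupp.degree_eq_sum]
  rw [h2]
  ring

/-- vanishing of homogeneous elements of `I` at any representative -/
theorem ratPts_rep {F : Type} [Field F] [Algebra ℚ F] {I : Ideal (MvPolynomial (Fin 5) F)}
    {u : Fin 5 → ℚ} (hu : u ≠ 0) (hx : mk ℚ u hu ∈ ratPts I) {g : MvPolynomial (Fin 5) F}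
    (hg : g ∈ I) {d : ℕ} (hd : g.IsHomogeneous d) :
    aeval (fun i => algebraMap ℚ F (u i)) g = 0 := by
  obtain ⟨c, hc⟩ := exists_smul_eq_mk_rep ℚ u hu
  have h1 := hx g hg
  rw [← hc] at h1
  have h2 : (fun i => algebraMap ℚ F ((c • u) i)) =
      fun i => algebraMap ℚ F (c : ℚ) * algebraMap ℚ F (u i) := by
    ext i
    rw [← map_mul]; rfl
  rw [h2, aeval_smul_homog' g hd] at h1
  refine (mul_eq_zero.mp h1).resolve_left (pow_ne_zero _ ?_)
  rw [Ne, map_eq_zero]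
  exact c.ne_zero

theorem mem_span_quartic {u : Fin 5 → ℚ} (hu : u ≠ 0) :
    mk ℚ u hu ∈ ratPts (Ideal.span {quartic}) ↔ aeval u quartic = 0 := by
  constructor
  · intro h
    have := ratPts_rep hu h (Ideal.mem_span_singleton_self _) quartic_homog
    simpa using this
  · intro h g hg
    obtain ⟨g', rfl⟩ := Ideal.mem_span_singleton.mp hg
    obtain ⟨c, hc⟩ := exists_smul_eq_mk_rep ℚ u hu
    rw [← hc, map_mul]
    have h2 : (fun i => algebraMap ℚ ℚ ((c • u) i)) = fun i => (c : ℚ) * u i := by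
      ext i
      rfl
    rw [h2, aeval_smul_homog' quartic quartic_homog, h]
    simp

theorem ratPts_subset {F : Type} [Field F] [Algebra ℚ F] {I : Ideal (MvPolynomial (Fin 5) F)}
    (hI : map (algebraMap ℚ F) quartic ∈ I) : ratPts I ⊆ ratPts (Ideal.span {quartic}) := by
  intro x hx
  rw [← x.mk_rep, mem_span_quartic]
  have h1 := hx _ hI
  rw [aeval_map_algebraMap] at h1
  have h2 : aeval (fun i => algebraMap ℚ F (x.rep i)) quartic =
      algebraMap ℚ F (aeval x.rep quartic) := by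
    rw [← aeval_algebraMap_apply]; rfl
  rw [h2] at h1
  exact (map_eq_zero _).mp h1

theorem adist_nonneg (x : P4) : 0 ≤ adist P0 x := by
  obtain ⟨n, hn, hgcd, rfl⟩ := exists_rep x
  rw [P0, adist_mk]
  exact (vdist_e1 n hn).2.2.2.1

theorem adist_eq_zero {x : P4} (h : adist P0 x = 0) : x = P0 := by
  obtain ⟨n, hn, hgcd, rfl⟩ := exists_rep x
  rw [P0, adist_mk] at h
  obtain ⟨hM, hle, hex, hD0, hDle, i, hi1, hi2⟩ := vdist_e1 n hn
  rw [h] at hDle
  have h1 : ∀ i, i ≠ 1 → n i = 0 := by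
    intro i hi
    have := hDle i hi
    rw [zero_mul] at this
    have h2 : (n i : ℝ) = 0 := abs_eq_zero.mp (le_antisymm this (abs_nonneg _))
    exact_mod_cast h2
  rw [P0, mk_eq_mk_iff']
  refine ⟨(n 1 : ℚ), ?_⟩
  ext i
  fin_cases i
  · simp [e1, h1 0 (by decide)]
  · simp [e1]
  · simp [e1, h1 2 (by decide)]
  · simp [e1, h1 3 (by decide)]
  · simp [e1, h1 4 (by decide)]

/-- Integral data attached to a rational point of the threefold close to `P0`. -/
theorem point_data {x : P4} (hx : x ∈ ratPts (Ideal.span {quartic})) (hD : adist P0 x < 1) :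
    ∃ (n : Fin 5 → ℤ) (hn : (fun i => (n i : ℚ)) ≠ 0), x = mk ℚ (fun i => (n i : ℚ)) hn ∧
      x.mulHeight = |(n 1 : ℝ)| ∧ n 1 ≠ 0 ∧ |(n 0 : ℝ)| ≤ adist P0 x * |(n 1 : ℝ)| ∧
      (∀ i, |(n (emb i) : ℝ)| ≤ adist P0 x * |(n 1 : ℝ)|) ∧
      (0 < adist P0 x → (adist P0 x * |(n 1 : ℝ)| ≤ |(n 0 : ℝ)| ∨
        ∃ i, adist P0 x * |(n 1 : ℝ)| ≤ |(n (emb i) : ℝ)|)) ∧
      n 1 * Nf (n (emb 0)) (n (emb 1)) (n (emb 2)) - Kf (n (emb 0)) (n (emb 1)) (n (emb 2)) +
        n 0 * n 1 ^ 3 + n 0 ^ 4 = 0 := by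
  obtain ⟨n, hn, hgcd, rfl⟩ := exists_rep x
  have hDd : adist P0 (mk ℚ (fun i => (n i : ℚ)) hn) = vdist e1 (fun i => (n i : ℚ)) := by
    rw [P0, adist_mk]
  rw [hDd] at hD ⊢
  obtain ⟨hM, hle, ⟨j, hj⟩, hD0, hDle, i, hi1, hi2⟩ := vdist_e1 n hn
  set D := vdist e1 (fun i => (n i : ℚ)) with hDdef
  set M := ⨆ i, |(n i : ℝ)| with hMdef
  have hj1 : j = 1 := by
    by_contra hne
    have := hDle j hne
    rw [← hj] at this
    nlinarith
  have hM1 : M = |(n 1 : ℝ)| := by rw [hj, hj1]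
  have hH : mulHeight (mk ℚ (fun i => (n i : ℚ)) hn) = M := by
    rw [mulHeight_primitive n hn hgcd, hMdef]
    obtain ⟨k, hk⟩ := exists_eq_ciSup_of_finite (f := fun i => |n i|)
    apply le_antisymm
    · rw [← hk]
      push_cast
      exact hle k
    · apply ciSup_le
      intro i
      have := le_iSup_int n i
      exact_mod_cast this
  refine ⟨n, hn, rfl, by rw [hH, hM1], ?_, ?_, ?_, ?_, ?_⟩
  · intro h0
    rw [hM1, h0] at hM
    simp at hM
  · rw [← hM1]; exact hDle 0 (by decide)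
  · intro k
    rw [← hM1]
    apply hDle
    fin_cases k <;> decide
  · intro hpos
    rw [← hM1]
    have hne := hi2 hpos.ne'
    fin_cases i
    · left; exact hi1
    · exact absurd rfl hne
    · right; exact ⟨0, hi1⟩
    · right; exact ⟨1, hi1⟩
    · right; exact ⟨2, hi1⟩
  · have h1 := (mem_span_quartic hn).mp hx
    rw [aeval_quartic] at h1
    have h2 : n 1 * Nf (n 2) (n 3) (n 4) - Kf (n 2) (n 3) (n 4) + n 0 * n 1 ^ 3 + n 0 ^ 4 = 0 := by
      unfold Nf Kf at h1 ⊢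
      exact_mod_cast h1
    exact h2

/-- A criterion for lower bounds for `α`. -/
theorem le_alpha {Z : Set P4} {c : ℝ}
    (h : ∀ γ < c, ∀ B₀ : ℝ, ∃ d₀ : ℝ, 0 < d₀ ∧ ∀ x ∈ Z, 0 < adist P0 x → adist P0 x < d₀ →
      B₀ < x.mulHeight * adist P0 x ^ γ) : (c : EReal) ≤ alpha P0 Z := by
  apply le_sInf
  rintro s ⟨x, hinj, hxZ, hlim, rfl⟩
  apply le_sInf
  rintro _ ⟨γ, ⟨_, B₀, hB₀⟩, rfl⟩
  by_contra hcon
  push Not at hcon
  have hγ : γ < c := by
    have : ((γ : ℝ) : EReal) < (c : EReal) := hcon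
    exact_mod_cast this
  obtain ⟨d₀, hd₀, hd⟩ := h γ hγ B₀
  have h1 : ∀ᶠ i in atTop, adist P0 (x i) < d₀ := hlim.eventually (gt_mem_nhds hd₀)
  have h2 : ∀ᶠ i in atTop, x i ≠ P0 := by
    by_cases hex : ∃ j, x j = P0
    · obtain ⟨j, hj⟩ := hex
      filter_upwards [eventually_gt_atTop j] with i hi hcon
      have := hinj (hcon.trans hj.symm)
      omega
    · push Not at hex
      exact Filter.Eventually.of_forall hex
  obtain ⟨i, hi1, hi2⟩ := (h1.and h2).exists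
  have hpos : 0 < adist P0 (x i) :=
    lt_of_le_of_ne (adist_nonneg _) (fun h => hi2 (adist_eq_zero h.symm))
  have h3 := hd (x i) (hxZ i) hpos hi1
  have h4 := hB₀ (Set.mem_range_self i)
  exact absurd h4 (not_le.mpr h3)

theorem alpha_X_ge : ((4 / 3 : ℝ) : EReal) ≤ alpha P0 (ratPts (Ideal.span {quartic})) := by
  apply le_alpha
  intro γ hγ B₀
  obtain ⟨d₀, hd₀, h⟩ := lower_X (γ := max γ (7 / 6)) (lt_of_lt_of_le (by norm_num) (le_max_right _ _))
    (max_lt hγ (by norm_num)) B₀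
  refine ⟨min d₀ 1, lt_min hd₀ one_pos, ?_⟩
  intro x hx hpos hlt
  have hD1 : adist P0 x < 1 := lt_of_lt_of_le hlt (min_le_right _ _)
  obtain ⟨n, hn, hxn, hH, hy, ht, ha, hmax, hf⟩ := point_data hx hD1
  have h1 := h (n 0) (n 1) (fun i => n (emb i)) (adist P0 x) hf hy hpos
    (lt_of_lt_of_le hlt (min_le_left _ _)) ht ha (hmax hpos)
  rw [hH]
  refine lt_of_lt_of_le h1 ?_
  apply mul_le_mul_of_nonneg_left _ (abs_nonneg _)
  exact Real.rpow_le_rpow_of_exponent_ge hpos hD1.le (le_max_left _ _)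

theorem alpha_curve_gt {F : Type} [Field F] [Algebra ℚ F] (I : Ideal (MvPolynomial (Fin 5) F))
    (hI : IsCurve I) (hIX : map (algebraMap ℚ F) quartic ∈ I) :
    ((4 / 3 : ℝ) : EReal) < alpha P0 (ratPts I) := by
  obtain ⟨g, d, hg0, hgd, hgI⟩ := exists_form_F I hI.1 hI.2.le
  obtain ⟨G, hG0, hGd, hGv⟩ := exists_form_rat g hg0 hgd
  obtain ⟨η, hη, hmain⟩ := main_lemma G hG0 hGd
  refine lt_of_lt_of_le (b := ((4 / 3 + η : ℝ) : EReal)) ?_ ?_
  · exact_mod_cast (by linarith : (4 / 3 : ℝ) < 4 / 3 + η)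
  apply le_alpha
  intro γ hγ B₀
  obtain ⟨d₀, hd₀, h⟩ := hmain B₀
  refine ⟨min d₀ 1, lt_min hd₀ one_pos, ?_⟩
  intro x hx hpos hlt
  have hD1 : adist P0 x < 1 := lt_of_lt_of_le hlt (min_le_right _ _)
  obtain ⟨n, hn, hxn, hH, hy, ht, ha, hmax, hf⟩ := point_data (ratPts_subset hIX hx) hD1
  by_contra hcon
  push Not at hcon
  refine h (n 0) (n 1) (fun i => n (emb i)) (adist P0 x) hf hy hpos
    (lt_of_lt_of_le hlt (min_le_left _ _)) ht ha (hmax hpos) ?_ ?_
  · rw [hH] at hcon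
    refine le_trans ?_ hcon
    apply mul_le_mul_of_nonneg_left _ (abs_nonneg _)
    exact Real.rpow_le_rpow_of_exponent_ge hpos hD1.le hγ.le
  · apply hGv
    rw [hxn] at hx
    have h1 := ratPts_rep hn hx hgI (hgd.rename_isHomogeneous)
    rw [aeval_rename] at h1
    have h2 : ((fun i => algebraMap ℚ F ((n i : ℤ) : ℚ)) ∘ emb) =
        fun i => ((n (emb i) : ℤ) : F) := by
      ext i
      simp
    rw [h2] at h1
    exact h1

theorem alpha_X_le : alpha P0 (ratPts (Ideal.span {quartic})) ≤ ((4 / 3 : ℝ) : EReal) := by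
  set C₀ : ℝ := 57177414 with hC₀
  set B₀ : ℝ := 648 * C₀ ^ (4 / 3 : ℝ) with hB₀
  -- good points arbitrarily close to P0
  have hgood : ∀ Q : ℕ, 1000 ≤ Q → ∃ x : P4, x ∈ ratPts (Ideal.span {quartic}) ∧
      0 < adist P0 x ∧ adist P0 x ≤ C₀ / (Q : ℝ) ^ 3 ∧
      x.mulHeight * adist P0 x ^ (4 / 3 : ℝ) ≤ B₀ := by
    intro Q hQ
    obtain ⟨m, hm0, hf, hbd, hDpos, hDle⟩ := upper_points Q hQ
    have hQ0 : (0:ℝ) < Q := by exact_mod_cast (by omega : 0 < Q)
    refine ⟨mk ℚ (fun i => (m i : ℚ)) hm0, ?_, ?_, ?_, ?_⟩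
    · rw [mem_span_quartic, aeval_quartic]
      unfold Nf Kf at hf ⊢
      exact_mod_cast hf
    · rw [P0, adist_mk]; exact hDpos
    · rw [P0, adist_mk]; exact hDle
    · rw [P0, adist_mk]
      have h1 := mulHeight_le_int m hm0 hbd
      have h2 : vdist e1 (fun i => (m i : ℚ)) ^ (4 / 3 : ℝ) ≤ (C₀ / (Q : ℝ) ^ 3) ^ (4 / 3 : ℝ) :=
        Real.rpow_le_rpow hDpos.le hDle (by norm_num)
      have h3 : (C₀ / (Q : ℝ) ^ 3) ^ (4 / 3 : ℝ) = C₀ ^ (4 / 3 : ℝ) / (Q : ℝ) ^ 4 := by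
        rw [Real.div_rpow (by norm_num) (by positivity), ← Real.rpow_natCast, ← Real.rpow_natCast,
          ← Real.rpow_mul hQ0.le]
        norm_num
      rw [h3] at h2
      calc _ ≤ (648 * (Q:ℝ) ^ 4) * (C₀ ^ (4 / 3 : ℝ) / (Q : ℝ) ^ 4) := by
            gcongr
        _ = B₀ := by rw [hB₀]; field_simp
  set S : Set ℝ := {δ | ∃ x : P4, x ∈ ratPts (Ideal.span {quartic}) ∧ 0 < adist P0 x ∧
    x.mulHeight * adist P0 x ^ (4 / 3 : ℝ) ≤ B₀ ∧ δ = adist P0 x} with hS
  have hSne : S.Nonempty := by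
    obtain ⟨x, h1, h2, _, h4⟩ := hgood 1000 le_rfl
    exact ⟨_, x, h1, h2, h4, rfl⟩
  have hglb : IsGLB S 0 := by
    constructor
    · rintro δ ⟨x, _, h2, _, rfl⟩
      exact h2.le
    · intro b hb
      by_contra hpos
      push Not at hpos
      obtain ⟨Q, hQ⟩ := exists_nat_gt (max 1000 (C₀ / b))
      have hQ1 : (1000:ℝ) < Q := lt_of_le_of_lt (le_max_left _ _) hQ
      have hQ2 : C₀ / b < Q := lt_of_le_of_lt (le_max_right _ _) hQ
      have hQ3 : 1000 ≤ Q := by exact_mod_cast hQ1.le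
      obtain ⟨x, h1, h2, h3, h4⟩ := hgood Q hQ3
      have h5 := hb ⟨x, h1, h2, h4, rfl⟩
      have hQ0 : (0:ℝ) < Q := by linarith
      have h6 : C₀ / (Q : ℝ) ^ 3 < b := by
        rw [div_lt_iff₀ (by positivity)]
        rw [div_lt_iff₀ hpos] at hQ2
        have h7 : (Q:ℝ) ≤ (Q:ℝ) ^ 3 := le_self_pow₀ (by linarith) (by norm_num)
        nlinarith
      linarith
  have h0S : (0:ℝ) ∉ S := by
    rintro ⟨x, _, h2, _, h3⟩
    linarith
  obtain ⟨u, hanti, _, hlim, huS⟩ := hglb.exists_seq_strictAnti_tendsto_of_notMem h0S hSne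
  choose x hx1 hx2 hx3 hx4 using huS
  have hlim' : Tendsto (fun i => adist P0 (x i)) atTop (𝓝 0) := by
    have : (fun i => adist P0 (x i)) = u := by
      ext i; exact (hx4 i).symm
    rw [this]; exact hlim
  apply sInf_le_of_le (b := seqAlpha P0 x)
  · refine ⟨x, ?_, hx1, hlim', rfl⟩
    intro i j hij
    apply hanti.injective
    rw [hx4 i, hx4 j, hij]
  · apply sInf_le
    refine ⟨4 / 3, ⟨hlim', B₀, ?_⟩, rfl⟩
    rintro _ ⟨i, rfl⟩
    exact hx3 i

theorem P0_mem : P0 ∈ ratPts (Ideal.span {quartic}) := by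
  rw [P0, mem_span_quartic, aeval_quartic]
  simp [e1, Nf, Kf]

/-- There is a smooth, irreducible quartic threefold `X = V(f)` in `ℙ⁴` over `ℚ` and a point
`P ∈ X(ℚ)` such that, for the archimedean place, `α(P, O(1)) = 4/3` on `X`, while
`α(P, O(1)|_C) > 4/3` for every curve `C ⊆ X`, over any extension field of `ℚ`. -/
theorem result : ∃ (f : MvPolynomial (Fin 5) ℚ) (P : P4), f.IsHomogeneous 4 ∧
    Irreducible (map (algebraMap ℚ ℂ) f) ∧
    (∀ z : Fin 5 → ℂ, z ≠ 0 → aeval z f = 0 → ∃ i, aeval z (pderiv i f) ≠ 0) ∧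
    P ∈ ratPts (Ideal.span {f}) ∧
    alpha P (ratPts (Ideal.span {f})) = ((4 / 3 : ℝ) : EReal) ∧
    ∀ (F : Type) [Field F] [Algebra ℚ F] (I : Ideal (MvPolynomial (Fin 5) F)),
      IsCurve I → map (algebraMap ℚ F) f ∈ I → ((4 / 3 : ℝ) : EReal) < alpha P (ratPts I) :=
  ⟨quartic, P0, quartic_homog, quartic_irreducible, fun z hz _ => quartic_smooth z hz, P0_mem,
    le_antisymm alpha_X_le alpha_X_ge, fun _ _ _ I hI hIX => alpha_curve_gt I hI hIX⟩

end Pool.Agent.Results.MP_16efdc_nt.NoBestCurve
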